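import Pool.Agent.Helper2.LD.St1

/-!
# LD project, module BrD: distances in the plain (brush) graph
-/

set_option autoImplicit false

namespace Pool.Agent.Helper89.LD

open Pool.Agent.Helper2.LD

/-- Length of a shortest way up and down between two lists. -/
private noncomputable def gg {α : Type} (lv l : List α) : ℕ∞ :=
  ⨅ (a : List α) (b : List α) (w : List α) (_ : l = a ++ w ∧ lv = b ++ w),
    ((a.length + b.length : ℕ) : ℕ∞)

private theorem gg_le {α : Type} {lv l a b w : List α} (h1 : l = a ++ w) (h2 : lv = b ++ w) :
    gg lv l ≤ ((a.length + b.length : ℕ) : ℕ∞) :=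
  iInf_le_of_le a (iInf_le_of_le b (iInf_le_of_le w (iInf_le _ ⟨h1, h2⟩)))

private theorem le_gg {α : Type} {lv l : List α} {m : ℕ∞}
    (h : ∀ a b w : List α, l = a ++ w → lv = b ++ w → m ≤ ((a.length + b.length : ℕ) : ℕ∞)) :
    m ≤ gg lv l :=
  le_iInf fun a => le_iInf fun b => le_iInf fun w => le_iInf fun hh => h a b w hh.1 hh.2

private theorem le_gg_add {α : Type} {lv l : List α} {m : ℕ∞}
    (h : ∀ a b w : List α, l = a ++ w → lv = b ++ w →
      m ≤ ((a.length + b.length : ℕ) : ℕ∞) + 1) :
    m ≤ gg lv l + 1 := by
  by_cases hm : m = 0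
  · simp [hm]
  · have : m - 1 ≤ gg lv l := by
      refine le_gg fun a b w h1 h2 => ?_
      exact tsub_le_iff_right.2 (h a b w h1 h2)
    exact tsub_le_iff_right.1 this

private theorem gg_cons {α : Type} (lv l : List α) (c : α) :
    gg lv (c :: l) ≤ gg lv l + 1 ∧ gg lv l ≤ gg lv (c :: l) + 1 := by
  constructor
  · refine le_gg_add fun a b w h1 h2 => ?_
    refine (gg_le (a := c :: a) (b := b) (w := w) (by simp [h1]) h2).trans ?_
    rw [List.length_cons]
    push_cast
    exact le_of_eq (by ring)
  · refine le_gg_add fun a b w h1 h2 => ?_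
    cases a with
    | nil =>
      rw [List.nil_append] at h1
      subst h1
      refine (gg_le (a := []) (b := b ++ [c]) (w := l) (by simp) (by simp [h2])).trans ?_
      simp
    | cons d a =>
      rw [List.cons_append, List.cons.injEq] at h1
      refine (gg_le (a := a) (b := b) (w := w) h1.2 h2).trans ?_
      rw [List.length_cons]
      have : a.length + b.length ≤ a.length + 1 + b.length + 1 := by omega
      exact_mod_cast this

private theorem le_edist {X : Type} (G : SimpleGraph X) (f : X → ℕ∞) (v : X) (h0 : f v = 0)
    (hf : ∀ x y, G.Adj x y → f x ≤ f y + 1) (u : X) : f u ≤ G.edist u v := by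
  have key : ∀ (x y : X) (p : G.Walk x y), f x ≤ f y + (p.length : ℕ∞) := by
    intro x y p
    induction p with
    | nil => simp
    | cons h p ih =>
      rw [SimpleGraph.Walk.length_cons]
      refine (hf _ _ h).trans ?_
      push_cast
      rw [← add_assoc]
      gcongr
  by_cases ht : G.edist u v = ⊤
  · rw [ht]; exact le_top
  · obtain ⟨p, hp⟩ := SimpleGraph.exists_walk_of_edist_ne_top ht
    rw [← hp]
    have := key u v p
    rwa [h0, zero_add] at this

private theorem okl_suffix {K : Type} : ∀ (a l : List (Finset K)), okl (a ++ l) → okl l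
  | [], _, h => h
  | (_ :: a), l, h => okl_suffix a l h.2

/-- Going up. -/
private theorem up {K V : Type} (S : SimpleGraph V) (h : ℕ) (s : V) :
    ∀ (a l : List (Finset K)) (x y : BrV K V h), x.1 = (s, a ++ l) → y.1 = (s, l) →
      (brG K S h).edist x y ≤ (a.length : ℕ∞) := by
  intro a
  induction a with
  | nil =>
    intro l x y hx hy
    have : x = y := Subtype.ext (by rw [hx, hy]; rfl)
    rw [this, SimpleGraph.edist_self]
    exact zero_le
  | cons c a ih =>
    intro l x y hx hy
    have h1 := x.2
    rw [hx] at h1
    let z : BrV K V h := ⟨(s, a ++ l), by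
      refine ⟨?_, h1.2.2⟩
      have := h1.1
      simp only [List.cons_append, List.length_cons] at this
      exact (Nat.le_succ _).trans this⟩
    have h2 : (brG K S h).Adj x z := by
      refine Or.inr ⟨by rw [hx], Or.inr ⟨c, ?_⟩⟩
      rw [hx]
      rfl
    have h3 := ih l z y rfl hy
    refine (SimpleGraph.edist_triangle (v := z)).trans ?_
    rw [SimpleGraph.edist_eq_one_iff_adj.2 h2, List.length_cons]
    push_cast
    rw [add_comm]
    gcongr

/-- Between hubs. -/
private theorem hub {K V : Type} (S : SimpleGraph V) (h : ℕ) (x y : BrV K V h)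
    (hx : x.1.2 = []) (hy : y.1.2 = []) :
    (brG K S h).edist x y ≤ S.edist x.1.1 y.1.1 := by
  let e : V → BrV K V h := fun s => ⟨(s, []), by simp, trivial⟩
  have he : ∀ s t, S.Adj s t → (brG K S h).Adj (e s) (e t) := fun s t hst => Or.inl ⟨rfl, rfl, hst⟩
  let φ : S →g brG K S h := ⟨e, fun {s t} hst => he s t hst⟩
  have hx' : x = e x.1.1 := Subtype.ext (Prod.ext rfl hx)
  have hy' : y = e y.1.1 := Subtype.ext (Prod.ext rfl hy)
  by_cases ht : S.edist x.1.1 y.1.1 = ⊤
  · rw [ht]; exact le_top
  · obtain ⟨p, hp⟩ := SimpleGraph.exists_walk_of_edist_ne_top ht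
    have h1 := SimpleGraph.edist_le (p.map φ)
    rw [SimpleGraph.Walk.length_map, hp] at h1
    have h2 : (brG K S h).edist (φ x.1.1) (φ y.1.1) = (brG K S h).edist x y := by
      conv_rhs => rw [hx', hy']
      rfl
    rw [h2] at h1
    exact h1

theorem pBrD : StBrD := by
  intro K V S h u v
  -- the potential
  obtain ⟨⟨s, lu⟩, hu⟩ := u
  obtain ⟨⟨t, lv⟩, hv⟩ := v
  have low : min ((lu.length : ℕ∞) + S.edist s t + (lv.length : ℕ∞))
      (⨅ (_ : s = t), gg lv lu) ≤ (brG K S h).edist ⟨(s, lu), hu⟩ ⟨(t, lv), hv⟩ := by
    refine le_edist (brG K S h) (fun x => min ((x.1.2.length : ℕ∞) + S.edist x.1.1 t +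
      (lv.length : ℕ∞)) (⨅ (_ : x.1.1 = t), gg lv x.1.2)) ⟨(t, lv), hv⟩ ?_ ?_ ⟨(s, lu), hu⟩
    · refine le_antisymm ((min_le_right _ _).trans ?_) zero_le
      refine iInf_le_of_le rfl ?_
      refine (gg_le (a := []) (b := []) (w := lv) rfl rfl).trans ?_
      simp
    · have key : ∀ x y : BrV K V h, (brG K S h).Adj x y →
          (⨅ (_ : y.1.1 = t), gg lv y.1.2) + 1 ≥
            min ((x.1.2.length : ℕ∞) + S.edist x.1.1 t + (lv.length : ℕ∞))
              (⨅ (_ : x.1.1 = t), gg lv x.1.2) := by
        intro x y hxy
        by_cases hy : y.1.1 = t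
        · rw [iInf_pos hy]
          rcases hxy with ⟨h1, h2, h3⟩ | ⟨h1, h2⟩
          · refine (min_le_left _ _).trans ?_
            rw [h1, h2]
            refine le_gg_add fun a b w h4 h5 => ?_
            have h6 := List.append_eq_nil_iff.1 h4.symm
            rw [hy] at h3
            rw [SimpleGraph.edist_eq_one_iff_adj.2 h3, h5, h6.1, h6.2]
            simp [add_comm]
          · refine (min_le_right _ _).trans ?_
            rw [iInf_pos (h1.trans hy)]
            rcases h2 with ⟨c, hc⟩ | ⟨c, hc⟩
            · rw [hc]
              exact (gg_cons lv x.1.2 c).2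
            · rw [hc]
              exact (gg_cons lv y.1.2 c).1
        · rw [iInf_neg hy]
          simp
      intro x y hxy
      have h0 : min ((y.1.2.length : ℕ∞) + S.edist y.1.1 t + (lv.length : ℕ∞))
          (⨅ (_ : y.1.1 = t), gg lv y.1.2) + 1 =
          min ((y.1.2.length : ℕ∞) + S.edist y.1.1 t + (lv.length : ℕ∞) + 1)
          ((⨅ (_ : y.1.1 = t), gg lv y.1.2) + 1) := by
        exact (min_add_add_right _ _ _).symm
      change _ ≤ min ((y.1.2.length : ℕ∞) + S.edist y.1.1 t + (lv.length : ℕ∞))
          (⨅ (_ : y.1.1 = t), gg lv y.1.2) + 1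
      rw [h0]
      refine le_min ?_ (key x y hxy)
      refine (min_le_left _ _).trans ?_
      rcases hxy with ⟨h1, h2, h3⟩ | ⟨h1, h2⟩
      · rw [h1, h2]
        have h4 : S.edist x.1.1 t ≤ 1 + S.edist y.1.1 t := by
          refine (SimpleGraph.edist_triangle (v := y.1.1)).trans ?_
          rw [SimpleGraph.edist_eq_one_iff_adj.2 h3]
        simp only [List.length_nil, Nat.cast_zero, zero_add]
        calc S.edist x.1.1 t + (lv.length : ℕ∞) ≤ 1 + S.edist y.1.1 t + (lv.length : ℕ∞) := by
              gcongr
          _ = S.edist y.1.1 t + (lv.length : ℕ∞) + 1 := by ring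
      · rw [h1]
        have h4 : (x.1.2.length : ℕ∞) ≤ (y.1.2.length : ℕ∞) + 1 := by
          rcases h2 with ⟨c, hc⟩ | ⟨c, hc⟩
          · rw [hc, List.length_cons]
            push_cast
            exact le_self_add.trans le_self_add
          · rw [hc, List.length_cons]
            push_cast
            exact le_rfl
        calc (x.1.2.length : ℕ∞) + S.edist y.1.1 t + (lv.length : ℕ∞) ≤
              ((y.1.2.length : ℕ∞) + 1) + S.edist y.1.1 t + (lv.length : ℕ∞) := by gcongr
          _ = (y.1.2.length : ℕ∞) + S.edist y.1.1 t + (lv.length : ℕ∞) + 1 := by ring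
  constructor
  · intro hst
    change s ≠ t at hst
    change (brG K S h).edist ⟨(s, lu), hu⟩ ⟨(t, lv), hv⟩ =
      (lu.length : ℕ∞) + S.edist s t + (lv.length : ℕ∞)
    refine le_antisymm ?_ ?_
    · let x : BrV K V h := ⟨(s, []), by simp, trivial⟩
      let y : BrV K V h := ⟨(t, []), by simp, trivial⟩
      have h1 := up S h s lu [] ⟨(s, lu), hu⟩ x (by simp) rfl
      have h2 := up S h t lv [] ⟨(t, lv), hv⟩ y (by simp) rfl
      have h3 := hub S h x y rfl rfl
      have h2' := (SimpleGraph.edist_comm (G := brG K S h) (u := y)
        (v := ⟨(t, lv), hv⟩)).le.trans h2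
      refine (SimpleGraph.edist_triangle (v := x)).trans ?_
      rw [add_assoc]
      refine add_le_add h1 ?_
      exact (SimpleGraph.edist_triangle (v := y)).trans (add_le_add h3 h2')
    · rw [iInf_neg hst] at low
      simpa using low
  · intro a b w hst h1 h2 hab
    change s = t at hst
    change lu = a ++ w at h1
    change lv = b ++ w at h2
    subst hst
    refine le_antisymm ?_ ?_
    · have hw : w.length ≤ h ∧ okl w := by
        have h3 := hu.1
        have h4 := hu.2
        change lu.length ≤ h at h3
        change okl lu at h4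
        rw [h1] at h3 h4
        rw [List.length_append] at h3
        exact ⟨by omega, okl_suffix a w h4⟩
      let x : BrV K V h := ⟨(s, w), hw⟩
      have h3 := up S h s a w ⟨(s, lu), hu⟩ x (by simp [h1]) rfl
      have h4 := up S h s b w ⟨(s, lv), hv⟩ x (by simp [h2]) rfl
      have h4' := (SimpleGraph.edist_comm (G := brG K S h) (u := x)
        (v := ⟨(s, lv), hv⟩)).le.trans h4
      refine (SimpleGraph.edist_triangle (v := x)).trans ?_
      push_cast
      exact add_le_add h3 h4'
    · refine le_trans ?_ low
      rw [iInf_pos rfl]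
      refine le_min ?_ ?_
      · rw [SimpleGraph.edist_self, h1, h2, List.length_append, List.length_append]
        have : a.length + b.length ≤ a.length + w.length + 0 + (b.length + w.length) := by omega
        exact_mod_cast this
      · refine le_gg fun a' b' w' h3 h4 => ?_
        rw [h1] at h3
        rw [h2] at h4
        have l3 := congrArg List.length h3
        have l4 := congrArg List.length h4
        rw [List.length_append, List.length_append] at l3 l4
        by_cases hw : w'.length ≤ w.length
        · have : a.length + b.length ≤ a'.length + b'.length := by omega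
          exact_mod_cast this
        · exfalso
          push Not at hw
          rcases List.append_eq_append_iff.1 h3 with ⟨c, hc1, hc2⟩ | ⟨c, hc1, hc2⟩
          · rw [hc2, List.length_append] at hw
            omega
          · have hb : b = b' ++ c := by
              rw [hc2, ← List.append_assoc] at h4
              exact List.append_cancel_right h4
            have hc : c ≠ [] := by
              rintro rfl
              rw [List.nil_append] at hc2
              rw [hc2] at hw
              exact lt_irrefl _ hw
            rcases hab with h5 | h5 | h5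
            · rw [hc1] at h5
              exact hc (List.append_eq_nil_iff.1 h5).2
            · rw [hb] at h5
              exact hc (List.append_eq_nil_iff.1 h5).2
            · apply h5
              rw [hc1, hb, List.getLast?_append_of_ne_nil _ hc, List.getLast?_append_of_ne_nil _ hc]

end Pool.Agent.Helper89.LD
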